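import Mathlib

set_option maxHeartbeats 400000

open Set Filter Topology

namespace Pool.Agent.Results.MP_88a444_an.Full

universe u v

/-- range strongly exposing operators -/
def RSE {𝕜 : Type} {X : Type u} {Y : Type v} [RCLike 𝕜] [NormedAddCommGroup X] [NormedSpace 𝕜 X]
    [NormedAddCommGroup Y] [NormedSpace 𝕜 Y] (T : X →L[𝕜] Y) : Prop :=
  ∃ x₀ : X, ‖x₀‖ = 1 ∧ ∀ x : ℕ → X, (∀ n, ‖x n‖ ≤ 1) →
    Tendsto (fun n => ‖T (x n)‖) atTop (𝓝 ‖T‖) →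
    ∃ σ : ℕ → ℕ, StrictMono σ ∧ ∃ l : 𝕜, ‖l‖ = 1 ∧
      Tendsto (fun n => T (x (σ n))) atTop (𝓝 (l • T x₀))

/-- the space of compact operators from X to Y has the BPBp-RSE -/
def CompactBPBpRSE (𝕜 : Type) (X : Type u) (Y : Type v) [RCLike 𝕜] [NormedAddCommGroup X]
    [NormedSpace 𝕜 X] [NormedAddCommGroup Y] [NormedSpace 𝕜 Y] : Prop :=
  ∀ ε : ℝ, 0 < ε → ∃ η : ℝ, 0 < η ∧ η < ε ∧ ∀ (T : X →L[𝕜] Y) (x : X), IsCompactOperator T →
    ‖T‖ = 1 → ‖x‖ = 1 → 1 - η < ‖T x‖ → ∃ (S : X →L[𝕜] Y) (x₀ : X), RSE S ∧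
      IsCompactOperator S ∧ ‖x₀‖ = 1 ∧ ‖S‖ = 1 ∧ ‖S x₀‖ = 1 ∧ ‖S - T‖ < ε ∧ ‖x - x₀‖ < ε

/-- uniform convexity -/
def UnifConvex (Y : Type v) [NormedAddCommGroup Y] : Prop :=
  ∀ ε : ℝ, 0 < ε → ∃ δ : ℝ, 0 < δ ∧ δ < 1 ∧ ∀ y₁ y₂ : Y, ‖y₁‖ = 1 → ‖y₂‖ = 1 →
    1 - δ < ‖y₁ + y₂‖ / 2 → ‖y₁ - y₂‖ < ε

/-- complex uniform convexity -/
def CUnifConvex (Y : Type v) [NormedAddCommGroup Y] [NormedSpace ℂ Y] : Prop :=
  ∀ ε : ℝ, 0 < ε → ∃ δ : ℝ, 0 < δ ∧ ∀ y₀ y₁ : Y, (∀ w : ℂ, ‖w‖ = 1 → ‖y₀ + w • y₁‖ ≤ 1) →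
    ε < ‖y₁‖ → ‖y₀‖ < 1 - δ

section core
variable {𝕜 : Type} {X : Type u} {Y : Type v} [RCLike 𝕜] [NormedAddCommGroup X] [NormedSpace 𝕜 X]
  [NormedAddCommGroup Y] [NormedSpace 𝕜 Y]

lemma helly (F : X →L[𝕜] Y) (p : Y) (h : ∀ u : Y →L[𝕜] 𝕜, ‖u p‖ ≤ ‖u.comp F‖) {δ : ℝ}
    (hδ : 0 < δ) : ∃ z : X, ‖z‖ ≤ 1 ∧ ‖F z - p‖ < δ := by
  let : NormedSpace ℝ Y := NormedSpace.restrictScalars ℝ 𝕜 Y
  have : IsScalarTower ℝ 𝕜 Y := IsScalarTower.of_algebraMap_smul fun _ _ => rfl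
  have hc : Convex ℝ (F '' {z | ‖z‖ ≤ 1}) := by
    rintro _ ⟨x, hx, rfl⟩ _ ⟨y, hy, rfl⟩ a b ha hb hab
    refine ⟨(a : 𝕜) • x + (b : 𝕜) • y, ?_, by rw [map_add, map_smul, map_smul]; rfl⟩
    refine (norm_add_le _ _).trans ?_
    rw [norm_smul, norm_smul, RCLike.norm_ofReal, RCLike.norm_ofReal, abs_of_nonneg ha,
      abs_of_nonneg hb]
    have h1 : ‖x‖ ≤ 1 := hx
    have h2 : ‖y‖ ≤ 1 := hy
    nlinarith
  have hp : p ∈ closure (F '' {z | ‖z‖ ≤ 1}) := by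
    by_contra hn
    obtain ⟨u, s, h1, h2⟩ :=
      RCLike.geometric_hahn_banach_closed_point (𝕜 := 𝕜) hc.closure isClosed_closure hn
    have h0 : 0 < s := by
      simpa using h1 (F 0) (subset_closure ⟨0, by simp, rfl⟩)
    have h3 : ‖u.comp F‖ ≤ s := by
      refine ContinuousLinearMap.opNorm_le_of_unit_norm h0.le fun x hx => ?_
      obtain ⟨a, a1, a2⟩ := RCLike.exists_norm_eq_mul_self ((u.comp F) x)
      have := h1 (F (a • x)) (subset_closure ⟨a • x, by simp [norm_smul, a1, hx], rfl⟩)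
      rw [map_smul, map_smul, smul_eq_mul] at this
      change RCLike.re (a * (u.comp F) x) < s at this
      rw [← a2, RCLike.ofReal_re] at this
      exact this.le
    have h4 := (RCLike.re_le_norm (u p)).trans ((h u).trans h3)
    linarith
  obtain ⟨_, ⟨z, hz, rfl⟩, hd⟩ := Metric.mem_closure_iff.1 hp δ hδ
  exact ⟨z, hz, by rwa [dist_comm, dist_eq_norm] at hd⟩

lemma comb {y₀ y₁ : Y} (h : ∀ w : 𝕜, ‖w‖ = 1 → ‖y₀ + w • y₁‖ ≤ 1) {a b : 𝕜} {r : ℝ}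
    (ha : ‖a‖ ≤ r) (hb : ‖b‖ ≤ r) : ‖a • y₀ + b • y₁‖ ≤ r := by
  obtain ⟨g, g1, g2⟩ := exists_dual_vector'' 𝕜 (a • y₀ + b • y₁)
  obtain ⟨c, c1, c2⟩ := RCLike.exists_norm_eq_mul_self (g y₀)
  obtain ⟨d, d1, d2⟩ := RCLike.exists_norm_eq_mul_self (g y₁)
  have c0 : c ≠ 0 := by rintro rfl; simp at c1
  have h1 := h (c⁻¹ * d) (by simp [c1, d1])
  have h2 : ‖g (c • (y₀ + (c⁻¹ * d) • y₁))‖ ≤ 1 := by
    refine (g.le_opNorm _).trans ?_
    rw [norm_smul, c1, one_mul]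
    exact mul_le_one₀ g1 (norm_nonneg _) h1
  have h3 : g (c • (y₀ + (c⁻¹ * d) • y₁)) = ((‖g y₀‖ + ‖g y₁‖ : ℝ) : 𝕜) := by
    rw [map_smul, map_add, map_smul, smul_eq_mul, smul_eq_mul, RCLike.ofReal_add, c2, d2]
    field_simp
  rw [h3, RCLike.norm_ofReal, abs_of_nonneg (by positivity)] at h2
  have h4 : ‖g (a • y₀ + b • y₁)‖ ≤ r * ‖g y₀‖ + r * ‖g y₁‖ := by
    rw [map_add, map_smul, map_smul]
    refine (norm_add_le _ _).trans ?_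
    rw [norm_smul, norm_smul]
    gcongr
  rw [g2, RCLike.norm_ofReal, abs_norm] at h4
  have := (norm_nonneg a).trans ha
  nlinarith

variable (e1 e2 : X →L[𝕜] 𝕜) (c : (X →L[𝕜] 𝕜) →ₗ[𝕜] 𝕜) (n1 : ‖e1‖ = 1) (n2 : ‖e2‖ = 1)
  (c1 : c e1 = 0) (c2 : c e2 = 1) (hL : ∀ f, ‖f - c f • e2‖ + ‖c f‖ ≤ ‖f‖)

include hL in
lemma psi {x : X} (hx : ‖x‖ ≤ 1) {t : 𝕜} (ht : ‖e2 x + t‖ ≤ 1) (f : X →L[𝕜] 𝕜) :
    ‖f x + t * c f‖ ≤ ‖f‖ := by
  have : f x + t * c f = (f - c f • e2) x + c f * (e2 x + t) := by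
    rw [sub_apply, smul_apply, smul_eq_mul]; ring
  rw [this]
  refine (norm_add_le _ _).trans (le_trans (add_le_add ?_ ?_) (hL f))
  · exact (ContinuousLinearMap.le_opNorm _ _).trans (mul_le_of_le_one_right (norm_nonneg _) hx)
  · rw [norm_mul]; exact mul_le_of_le_one_right (norm_nonneg _) ht

include c1 c2 hL in
lemma step (u v : Y) (T S : X →L[𝕜] Y) (hT : ∀ x, T x = e1 x • u + e2 x • v) (x₀ : X)
    (hR : RSE S) (hx : ‖x₀‖ = 1) (hS : ‖S‖ = 1) (h0 : ‖S x₀‖ = 1) (he : ‖e2 x₀‖ ≤ 1 / 2) :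
    ‖v‖ ≤ 4 * ‖S - T‖ := by
  obtain ⟨g, g1, g2⟩ := exists_dual_vector'' 𝕜 (S x₀)
  rw [h0, RCLike.ofReal_one] at g2
  have hh : ‖(1 / 2 : 𝕜)‖ = 1 / 2 := by simp
  have t1 : ‖e2 x₀ + 1 / 2‖ ≤ 1 := (norm_add_le _ _).trans (by linarith)
  have t2 : ‖e2 x₀ + -(1 / 2)‖ ≤ 1 := (norm_add_le _ _).trans (by rw [norm_neg]; linarith)
  set f := g.comp S with hf
  have f0 : f x₀ = 1 := g2
  have f1 : ‖f‖ ≤ 1 := (g.opNorm_comp_le S).trans (by rw [hS]; linarith)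
  have cf : c f = 0 := by
    have a1 := (psi e2 c hL hx.le t1 f).trans f1
    have a2 := (psi e2 c hL hx.le t2 f).trans f1
    rw [f0] at a1 a2
    rw [neg_mul, ← sub_eq_add_neg] at a2
    have a3 := parallelogram_law_with_norm 𝕜 (1:𝕜) (1 / 2 * c f)
    rw [norm_one, norm_mul, hh] at a3
    have a4 : ‖c f‖ ^ 2 ≤ 0 := by
      nlinarith [norm_nonneg (1 + 1 / 2 * c f), norm_nonneg (1 - 1 / 2 * c f)]
    exact norm_eq_zero.1 (pow_eq_zero_iff two_ne_zero |>.1 (le_antisymm a4 (sq_nonneg _)))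
  have hz : ∀ n : ℕ, ∃ z : X, ‖z‖ ≤ 1 ∧
      ‖(f.prod T) z - (1, T x₀ + (1 / 2 : 𝕜) • v)‖ < 1 / ((n:ℝ) + 1) := fun n => by
    refine helly _ _ (fun w => ?_) (by positivity)
    have k : w.comp (f.prod T) = w (1, 0) • f + w (0, u) • e1 + w (0, v) • e2 := by
      ext x
      have : (f x, T x) = f x • ((1:𝕜), (0:Y)) + e1 x • (0, u) + e2 x • (0, v) := by
        rw [hT]; ext <;> simp
      change w (f x, T x) = w (1, 0) * f x + w (0, u) * e1 x + w (0, v) * e2 x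
      rw [this, map_add, map_add, map_smul, map_smul, map_smul]
      simp only [smul_eq_mul]; ring
    have ck : c (w.comp (f.prod T)) = w (0, v) := by
      rw [k, map_add, map_add, map_smul, map_smul, map_smul, cf, c1, c2]; simp
    have := psi e2 c hL hx.le t1 (w.comp (f.prod T))
    rw [ck] at this
    refine le_trans (le_of_eq ?_) this
    congr 1
    change _ = w (f x₀, T x₀) + _
    rw [← smul_eq_mul, ← map_smul, ← map_add, f0]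
    congr 1
    ext <;> simp
  choose z z1 z2 using hz
  have lim : Tendsto (fun n => (f.prod T) (z n)) atTop (𝓝 (1, T x₀ + (1 / 2 : 𝕜) • v)) := by
    rw [tendsto_iff_norm_sub_tendsto_zero]
    exact squeeze_zero (fun _ => norm_nonneg _) (fun n => (z2 n).le)
      tendsto_one_div_add_atTop_nhds_zero_nat
  have l1 : Tendsto (fun n => g (S (z n))) atTop (𝓝 1) := (continuous_fst.tendsto _).comp lim
  have l2 : Tendsto (fun n => T (z n)) atTop (𝓝 (T x₀ + (1 / 2 : 𝕜) • v)) :=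
    (continuous_snd.tendsto _).comp lim
  obtain ⟨x₁, -, hx₁⟩ := hR
  obtain ⟨σ, s1, l, -, s3⟩ := hx₁ z z1 (by
    refine tendsto_of_tendsto_of_tendsto_of_le_of_le (g := fun n => ‖g (S (z n))‖)
      (by simpa [hS] using l1.norm) tendsto_const_nhds (fun n => ?_) fun n => ?_
    · exact (g.le_opNorm _).trans (mul_le_of_le_one_left (norm_nonneg _) g1)
    · exact (S.le_opNorm _).trans (mul_le_of_le_one_right (norm_nonneg _) (z1 n)))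
  obtain ⟨τ, -, m, -, m3⟩ := hx₁ (fun _ => x₀) (fun _ => hx.le)
    (by rw [h0, hS]; exact tendsto_const_nhds)
  have m4 : S x₀ = m • S x₁ := tendsto_nhds_unique tendsto_const_nhds m3
  have m5 : g (l • S x₁) = 1 :=
    tendsto_nhds_unique ((g.continuous.tendsto _).comp s3) (l1.comp s1.tendsto_atTop)
  have m6 : l = m := by
    rw [m4, map_smul, smul_eq_mul] at g2
    rw [map_smul, smul_eq_mul] at m5
    have : g (S x₁) ≠ 0 := by rintro h; rw [h] at g2; simp at g2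
    exact mul_right_cancel₀ this (m5.trans g2.symm)
  rw [m6, ← m4] at s3
  have l3 := (s3.sub (l2.comp s1.tendsto_atTop)).norm
  have l4 : ‖S x₀ - (T x₀ + (1 / 2 : 𝕜) • v)‖ ≤ ‖S - T‖ := le_of_tendsto' l3 fun n =>
    ((S - T).le_opNorm (z (σ n))).trans (mul_le_of_le_one_right (norm_nonneg _) (z1 _))
  have l5 := (S - T).le_opNorm x₀
  rw [hx, mul_one, sub_apply] at l5
  have l6 := norm_sub_le (S x₀ - T x₀) (S x₀ - (T x₀ + (1 / 2 : 𝕜) • v))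
  have l7 : S x₀ - T x₀ - (S x₀ - (T x₀ + (1 / 2 : 𝕜) • v)) = (1 / 2 : 𝕜) • v := by abel
  rw [l7, norm_smul, hh] at l6
  linarith

include n1 n2 c1 c2 hL in
lemma core (H : CompactBPBpRSE 𝕜 X Y) {ε : ℝ} (hε : 0 < ε) : ∃ δ : ℝ, 0 < δ ∧ ∀ y₀ y₁ : Y,
    (∀ w : 𝕜, ‖w‖ = 1 → ‖y₀ + w • y₁‖ ≤ 1) → ε < ‖y₁‖ → ‖y₀‖ < 1 - δ := by
  obtain ⟨η, h0, h1, H⟩ := H (min (ε / 8) (1 / 4)) (by positivity)
  have m1 := min_le_left (ε / 8) (1 / 4)
  have m2 := min_le_right (ε / 8) (1 / 4)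
  refine ⟨η / 2, by positivity, fun y₀ y₁ hy h2 => not_le.1 fun h3 => ?_⟩
  have b1 : ∀ x, ‖e1 x‖ ≤ ‖x‖ := fun x => by simpa [n1] using e1.le_opNorm x
  have b2 : ∀ x, ‖e2 x‖ ≤ ‖x‖ := fun x => by simpa [n2] using e2.le_opNorm x
  set T : X →L[𝕜] Y := e1.smulRight y₀ + e2.smulRight y₁ with hT
  have Ta : ∀ x, T x = e1 x • y₀ + e2 x • y₁ := fun x => rfl
  have Tn : ‖T‖ ≤ 1 := T.opNorm_le_bound zero_le_one fun x => by
    rw [one_mul, Ta]; exact comb hy (b1 x) (b2 x)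
  obtain ⟨z, z1, z2⟩ := helly (e1.prod e2) (1, 0) (fun w => by
    have k : w.comp (e1.prod e2) = w (1, 0) • e1 + w (0, 1) • e2 := by
      ext x
      have : (e1 x, e2 x) = e1 x • ((1:𝕜), (0:𝕜)) + e2 x • (0, 1) := by ext <;> simp
      change w (e1 x, e2 x) = w (1, 0) * e1 x + w (0, 1) * e2 x
      rw [this, map_add, map_smul, map_smul]
      simp only [smul_eq_mul]; ring
    have := hL (w.comp (e1.prod e2))
    have ck : c (w.comp (e1.prod e2)) = w (0, 1) := by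
      rw [k, map_add, map_smul, map_smul, c1, c2]; simp
    rw [ck] at this
    nth_rewrite 1 [k] at this
    rw [add_sub_cancel_right, norm_smul, n1, mul_one] at this
    linarith [norm_nonneg (w (0, 1))]) (δ := η / 4) (by positivity)
  have z3 : ‖e1 z - 1‖ ≤ η / 4 := (norm_fst_le _).trans z2.le
  have z4 : ‖e2 z‖ ≤ η / 4 := by
    have : ‖e2 z - 0‖ ≤ η / 4 := (norm_snd_le _).trans z2.le
    rwa [sub_zero] at this
  have z5 : 1 - η < ‖T z‖ := by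
    have a1 := comb hy z3 z4
    have a2 : y₀ = T z - ((e1 z - 1) • y₀ + e2 z • y₁) := by rw [Ta]; module
    have a3 := norm_sub_le (T z) ((e1 z - 1) • y₀ + e2 z • y₁)
    rw [← a2] at a3
    linarith
  have z6 := T.le_opNorm z
  have z7 : 1 / 2 ≤ ‖z‖ := by nlinarith [norm_nonneg z]
  have z8 : 1 / 2 ≤ ‖T‖ := by nlinarith [norm_nonneg T]
  have i1 : 1 ≤ ‖z‖⁻¹ := one_le_inv_iff₀.2 ⟨by linarith, z1⟩
  have i2 : 1 ≤ ‖T‖⁻¹ := one_le_inv_iff₀.2 ⟨by linarith, Tn⟩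
  have i3 : ‖z‖⁻¹ ≤ 2 := by rw [inv_le_comm₀ (by linarith) (by norm_num)]; linarith
  set a : 𝕜 := ((‖z‖⁻¹ : ℝ) : 𝕜) with ha
  set b : 𝕜 := ((‖T‖⁻¹ : ℝ) : 𝕜) with hb
  have na : ‖a‖ = ‖z‖⁻¹ := by rw [ha, RCLike.norm_ofReal, abs_of_pos (by linarith)]
  have nb : ‖b‖ = ‖T‖⁻¹ := by rw [hb, RCLike.norm_ofReal, abs_of_pos (by linarith)]
  have cp : IsCompactOperator (b • T) := by
    have : ProperSpace 𝕜 := inferInstance
    have k1 : ∀ (e : X →L[𝕜] 𝕜) (y : Y), IsCompactOperator (e.smulRight y) := fun e y =>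
      (isCompactOperator_of_locallyCompactSpace_dom e).continuous_comp
        (g := fun s : 𝕜 => s • y) (by fun_prop)
    exact ((k1 e1 y₀).add (k1 e2 y₁)).smul b
  obtain ⟨S, x₀, r1, -, r2, r3, r4, r5, r6⟩ := H (b • T) (a • z) cp
    (by rw [norm_smul, nb, inv_mul_cancel₀ (by linarith)])
    (by rw [norm_smul, na, inv_mul_cancel₀ (by linarith)]) (by
      rw [smul_apply, map_smul, norm_smul, norm_smul, na, nb]
      have := norm_nonneg (T z)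
      have : ‖T z‖ ≤ ‖z‖⁻¹ * ‖T z‖ := le_mul_of_one_le_left this i1
      nlinarith)
  have q := step e1 e2 c c1 c2 hL (b • y₀) (b • y₁) (b • T) S
    (fun x => by rw [smul_apply, Ta]; module) x₀ r1 r2 r3 r4 (by
      have a1 := b2 (a • z - x₀)
      have a2 := norm_sub_le (e2 (a • z)) (e2 (a • z - x₀))
      rw [← map_sub, sub_sub_cancel, map_smul, norm_smul, na] at a2
      nlinarith [norm_nonneg (e2 z)])
  rw [norm_smul, nb] at q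
  nlinarith [norm_nonneg y₁]

lemma core' (Φ : StrongDual 𝕜 X ≃ₗᵢ[𝕜] lp (fun _ : ℕ => 𝕜) 1) (H : CompactBPBpRSE 𝕜 X Y) {ε : ℝ}
    (hε : 0 < ε) : ∃ δ : ℝ, 0 < δ ∧ ∀ y₀ y₁ : Y,
    (∀ w : 𝕜, ‖w‖ = 1 → ‖y₀ + w • y₁‖ ≤ 1) → ε < ‖y₁‖ → ‖y₀‖ < 1 - δ := by
  refine core (Φ.symm (lp.single 1 0 1)) (Φ.symm (lp.single 1 1 1))
    ⟨⟨fun f => Φ f 1, fun f g => by simp⟩, fun s f => by simp⟩ ?_ ?_ ?_ ?_ (fun f => ?_) H hε
  · rw [Φ.symm.norm_map, lp.norm_single (by norm_num), norm_one]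
  · rw [Φ.symm.norm_map, lp.norm_single (by norm_num), norm_one]
  · simp
  · simp
  · have := lp.norm_sub_norm_compl_sub_single (p := 1) (by simp) (Φ f) {1}
    simp only [ENNReal.toReal_one, Real.rpow_one, Finset.sum_singleton] at this
    change ‖f - Φ f 1 • _‖ + ‖Φ f 1‖ ≤ _
    rw [← Φ.norm_map, ← Φ.norm_map f, map_sub, map_smul, Φ.apply_symm_apply, ← lp.single_smul,
      smul_eq_mul, mul_one]
    linarith

end core

theorem result :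
    (∀ (X : Type u) (Y : Type v) [NormedAddCommGroup X] [NormedSpace ℝ X] [CompleteSpace X]
      [NormedAddCommGroup Y] [NormedSpace ℝ Y] [CompleteSpace Y],
      Nonempty (StrongDual ℝ X ≃ₗᵢ[ℝ] lp (fun _ : ℕ => ℝ) 1) → CompactBPBpRSE ℝ X Y →
        UnifConvex Y) ∧
    (∀ (X : Type u) (Y : Type v) [NormedAddCommGroup X] [NormedSpace ℂ X] [CompleteSpace X]
      [NormedAddCommGroup Y] [NormedSpace ℂ Y] [CompleteSpace Y],
      Nonempty (StrongDual ℂ X ≃ₗᵢ[ℂ] lp (fun _ : ℕ => ℂ) 1) → CompactBPBpRSE ℂ X Y →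
        CUnifConvex Y) := by
  refine ⟨fun X Y _ _ _ _ _ _ ⟨Φ⟩ H ε hε => ?_, fun X Y _ _ _ _ _ _ ⟨Φ⟩ H ε hε => core' Φ H hε⟩
  obtain ⟨δ, h0, h1⟩ := core' Φ H (ε := ε / 4) (by positivity)
  refine ⟨min δ (1 / 2), by positivity, (min_le_right _ _).trans_lt (by norm_num),
    fun y₁ y₂ a1 a2 a3 => not_le.1 fun a4 => ?_⟩
  have := h1 ((1 / 2 : ℝ) • (y₁ + y₂)) ((1 / 2 : ℝ) • (y₁ - y₂)) (fun w hw => by
    rcases (abs_eq zero_le_one).1 hw with rfl | rfl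
    · refine le_of_eq (Eq.trans ?_ a1); congr 1; module
    · refine le_of_eq (Eq.trans ?_ a2); congr 1; module)
    (by rw [norm_smul, Real.norm_of_nonneg (by norm_num)]; linarith)
  rw [norm_smul, Real.norm_of_nonneg (by norm_num)] at this
  linarith [min_le_left δ (1 / 2)]

end Pool.Agent.Results.MP_88a444_an.Full
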